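import Pool.Agent.H190R3.HT.Reduce

/-!
# Ramsey's theorem for pairs is not Weihrauch reducible to Hindman's theorem for sums of exactly
two elements (two colours)

Not even the pigeonhole principle for three colours is reducible to it, by any continuous
functionals.  Idea: fix an idempotent ultrafilter `e` on the integers and let `G` be the limit
colouring `G z = lim (y → e) d (z + y)` of a colouring `d`.  A finite set `F` with sums of colour `i`
extends to a solution of colour `i` if `G = i` on `w + F` and at `2 w` for some integer `w`.  If the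
sums for the instance `f = s a a a ...` admit solutions of both colours then the limit of the
colourings `G` for `s a ... a c c c ...` is eventually constant, which is impossible; so every such
instance has one colour only, and two of three successive phases have the same colour.
-/

set_option autoImplicit false

namespace Pool.Agent.Results.MP_db6017_lc.NotReducible

open Pool.Agent.H190R3.Wei Pool.Agent.H190R3.HT

/-- A problem: its instances, which are points of Baire space, and the solutions of each of
them. -/
structure Problem where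
  /-- the set of instances -/
  inst : Set (ℕ → ℕ)
  /-- the set of solutions of an instance -/
  sol : (ℕ → ℕ) → Set (ℕ → ℕ)

/-- `z` is the characteristic function of an infinite set of natural numbers. -/
def IsInfiniteSet (z : ℕ → ℕ) : Prop := (∀ n, z n < 2) ∧ {n | z n = 1}.Infinite

/-- Ramsey's theorem for pairs and two colours: the colour of the pair `a < b` under the instance
`x` is `x (Nat.pair a b)`; the solutions are the infinite homogeneous sets. -/
def RT22 : Problem where
  inst := {x | ∀ n, x n < 2}
  sol x := {z | IsInfiniteSet z ∧ ∃ i, ∀ a b, a < b → z a = 1 → z b = 1 → x (Nat.pair a b) = i}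

/-- Stable Ramsey's theorem for pairs and two colours. -/
def SRT22 : Problem where
  inst := {x | (∀ n, x n < 2) ∧ ∀ a, ∃ i m, ∀ b, m ≤ b → x (Nat.pair a b) = i}
  sol x := {z | IsInfiniteSet z ∧ ∃ i, ∀ a b, a < b → z a = 1 → z b = 1 → x (Nat.pair a b) = i}

/-- The pigeonhole principle for `k` colours: the solutions of a colouring of the natural numbers
are the infinite sets on which it is constant. -/
def RT1 (k : ℕ) : Problem where
  inst := {x | ∀ n, x n < k}
  sol x := {z | IsInfiniteSet z ∧ ∃ i, ∀ a, z a = 1 → x a = i}

/-- Hindman's theorem for sums of exactly two elements and two colours: the solutions of a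
two-colouring `x` of the natural numbers are the infinite sets `H` such that `x` is constant on the
sums `a + b`, `a < b` in `H`. -/
def HT22 : Problem where
  inst := {x | ∀ n, x n < 2}
  sol x := {z | IsInfiniteSet z ∧ ∃ i, ∀ a b, a < b → z a = 1 → z b = 1 → x (a + b) = i}

/-- The functionals given by `φ` and `ψ` reduce `P` to `Q`: for every instance `x` of `P`, `Φ(x)` is
an instance of `Q`, and for every solution `z` of `Φ(x)`, `Ψ(x ⊕ z)` is a solution of `x`. -/
def Reduces (φ ψ : List ℕ → List ℕ) (P Q : Problem) : Prop :=
  ∀ x ∈ P.inst, ∃ y ∈ Q.inst, Maps φ x y ∧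
    ∀ z ∈ Q.sol y, ∃ w ∈ P.sol x, Maps ψ (pair x z) w

/-- Weihrauch reducibility: the functionals are given by computable monotone word functions. -/
def WeihrauchLE (P Q : Problem) : Prop :=
  ∃ φ ψ : List ℕ → List ℕ, IsMachine φ ∧ IsMachine ψ ∧ Reduces φ ψ P Q

/-- Continuous Weihrauch reducibility: arbitrary word functions. -/
def ContinuousLE (P Q : Problem) : Prop := ∃ φ ψ : List ℕ → List ℕ, Reduces φ ψ P Q

theorem not_RT1 : ¬ ContinuousLE (RT1 3) HT22 := by
  rintro ⟨φ, ψ, h⟩
  refine no_machine (fun f n => (f n : ℕ)) (fun f n => ⟨n, fun f' hf k hk => by rw [hf k hk]⟩)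
    φ ψ ?_
  intro f _
  obtain ⟨y, hy, h1, h2⟩ := h (fun n => (f n : ℕ)) (fun n => (f n).isLt)
  refine ⟨y, hy, h1, fun z hz1 hz2 hz3 => ?_⟩
  obtain ⟨w, ⟨hw1, i, hw2⟩, hw3⟩ := h2 z ⟨⟨hz1, hz2⟩, hz3⟩
  refine ⟨w, hw3, hw1.2, fun a b ha hb => ?_⟩
  apply Fin.ext
  have e1 : (f a : ℕ) = i := hw2 a ha
  have e2 : (f b : ℕ) = i := hw2 b hb
  rw [e1, e2]

theorem not_SRT22 : ¬ ContinuousLE SRT22 HT22 := by
  classical
  rintro ⟨φ, ψ, h⟩
  refine no_machine (fun f n => if f (Nat.unpair n).1 = f (Nat.unpair n).2 then 1 else 0)
    (fun f n => ⟨n, fun f' hf k hk => ?_⟩) φ ψ ?_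
  · have h1 := Nat.unpair_left_le k
    have h2 := Nat.unpair_right_le k
    show (if f' (Nat.unpair k).1 = f' (Nat.unpair k).2 then 1 else 0) =
      (if f (Nat.unpair k).1 = f (Nat.unpair k).2 then 1 else 0)
    rw [hf _ (by omega), hf _ (by omega)]
  · intro f hf
    obtain ⟨c, n, hc⟩ := hf
    obtain ⟨y, hy, h1, h2⟩ := h
      (fun n => if f (Nat.unpair n).1 = f (Nat.unpair n).2 then 1 else 0) ⟨fun n => by
        beta_reduce
        split_ifs <;> omega, fun a => ⟨if f a = c then 1 else 0, n, fun b hb => by
        beta_reduce
        rw [Nat.unpair_pair, hc b hb]⟩⟩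
    refine ⟨y, hy, h1, fun z hz1 hz2 hz3 => ?_⟩
    obtain ⟨w, ⟨hw1, i, hw2⟩, hw3⟩ := h2 z ⟨⟨hz1, hz2⟩, hz3⟩
    refine ⟨w, hw3, hw1.2, ?_⟩
    have hw4 : ∀ a b, a < b → w a = 1 → w b = 1 → (if f a = f b then 1 else 0) = i := by
      intro a b hab ha hb
      have := hw2 a b hab ha hb
      beta_reduce at this
      rw [Nat.unpair_pair] at this
      exact this
    have key : ∀ a b, a < b → w a = 1 → w b = 1 → f a = f b := by
      intro a b hab ha hb
      by_contra hne
      have hi := hw4 a b hab ha hb
      rw [if_neg hne] at hi
      have hinj : Set.InjOn f {n | w n = 1} := by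
        intro s hs t ht hst
        by_contra hne'
        rcases lt_or_gt_of_ne hne' with hlt | hlt
        · have := hw4 s t hlt hs ht
          rw [if_pos hst] at this
          omega
        · have := hw4 t s hlt ht hs
          rw [if_pos hst.symm] at this
          omega
      exact hw1.2 (Set.Finite.of_finite_image (Set.toFinite _) hinj)
    intro a b ha hb
    rcases lt_trichotomy a b with hlt | heq | hlt
    · exact key a b hlt ha hb
    · rw [heq]
    · exact (key b a hlt hb ha).symm

/-- **Negative answer to Q2.**  Ramsey's theorem for pairs is not Weihrauch reducible to Hindman's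
theorem for sums of exactly two elements (two colours each).  Moreover neither the stable Ramsey
theorem for pairs nor the pigeonhole principle for three colours is reducible to it by means of
continuous functionals. -/
theorem result : ¬ WeihrauchLE RT22 HT22 ∧ ¬ ContinuousLE SRT22 HT22 ∧
    ¬ ContinuousLE (RT1 3) HT22 := by
  refine ⟨?_, not_SRT22, not_RT1⟩
  rintro ⟨φ, ψ, -, -, h⟩
  exact not_SRT22 ⟨φ, ψ, fun x hx => h x hx.1⟩

end Pool.Agent.Results.MP_db6017_lc.NotReducible
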